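import Pool.Agent.W8.ST.Stm

/-!
ST-NC (helper241).
-/

open scoped ContDiff
open MeasureTheory intervalIntegral

namespace Pool.Agent.W241.ST

open Pool.Agent.W8.ST

noncomputable section

/-! ### derivatives along coordinate lines -/

theorem hd0 (w : V 4 → ℝ) (hw : Differentiable ℝ w) (t a b c : ℝ) :
    HasDerivAt (fun s => w ![s, a, b, c]) (pd 0 w ![t, a, b, c]) t := by
  have h1 : HasDerivAt (fun s : ℝ => (![s, a, b, c] : V 4)) (Pi.single 0 1) t := by
    rw [hasDerivAt_pi]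
    intro i
    fin_cases i <;> simp [hasDerivAt_id', hasDerivAt_const]
  exact (hw ![t, a, b, c]).hasFDerivAt.comp_hasDerivAt t h1

theorem hd1 (w : V 4 → ℝ) (hw : Differentiable ℝ w) (t a b c : ℝ) :
    HasDerivAt (fun s => w ![t, s, b, c]) (pd 1 w ![t, a, b, c]) a := by
  have h1 : HasDerivAt (fun s : ℝ => (![t, s, b, c] : V 4)) (Pi.single 1 1) a := by
    rw [hasDerivAt_pi]
    intro i
    fin_cases i <;> simp [hasDerivAt_id', hasDerivAt_const]
  exact (hw ![t, a, b, c]).hasFDerivAt.comp_hasDerivAt a h1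

theorem hd2 (w : V 4 → ℝ) (hw : Differentiable ℝ w) (t a b c : ℝ) :
    HasDerivAt (fun s => w ![t, a, s, c]) (pd 2 w ![t, a, b, c]) b := by
  have h1 : HasDerivAt (fun s : ℝ => (![t, a, s, c] : V 4)) (Pi.single 2 1) b := by
    rw [hasDerivAt_pi]
    intro i
    fin_cases i <;> simp [hasDerivAt_id', hasDerivAt_const]
  exact (hw ![t, a, b, c]).hasFDerivAt.comp_hasDerivAt b h1

theorem hd3 (w : V 4 → ℝ) (hw : Differentiable ℝ w) (t a b c : ℝ) :
    HasDerivAt (fun s => w ![t, a, b, s]) (pd 3 w ![t, a, b, c]) c := by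
  have h1 : HasDerivAt (fun s : ℝ => (![t, a, b, s] : V 4)) (Pi.single 3 1) c := by
    rw [hasDerivAt_pi]
    intro i
    fin_cases i <;> simp [hasDerivAt_id', hasDerivAt_const]
  exact (hw ![t, a, b, c]).hasFDerivAt.comp_hasDerivAt c h1

theorem mem_strip {t a b c : ℝ} (ht : |t| ≤ 1) : (![t, a, b, c] : V 4) ∈ strip 3 := by
  show |(![t, a, b, c] : V 4) 0| ≤ 1
  simpa using ht

theorem indep (w : V 4 → ℝ) (hw : Differentiable ℝ w)
    (h : ∀ x ∈ strip 3, pd 2 w x = 0 ∧ pd 3 w x = 0) {t : ℝ} (ht : |t| ≤ 1) (a b c : ℝ) :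
    w ![t, a, b, c] = w ![t, a, 0, 0] := by
  have e1 : w ![t, a, b, c] = w ![t, a, 0, c] := by
    have hd : Differentiable ℝ (fun s => w ![t, a, s, c]) := fun s =>
      (hd2 w hw t a s c).differentiableAt
    apply is_const_of_deriv_eq_zero hd
    intro s
    rw [(hd2 w hw t a s c).deriv]
    exact (h _ (mem_strip ht)).1
  have e2 : w ![t, a, 0, c] = w ![t, a, 0, 0] := by
    have hd : Differentiable ℝ (fun s => w ![t, a, 0, s]) := fun s =>
      (hd3 w hw t a 0 s).differentiableAt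
    apply is_const_of_deriv_eq_zero hd
    intro s
    rw [(hd3 w hw t a 0 s).deriv]
    exact (h _ (mem_strip ht)).2
  rw [e1, e2]

theorem indep1 (w : V 4 → ℝ) (hw : Differentiable ℝ w) {t : ℝ}
    (h : ∀ a b c, w ![t, a, b, c] = w ![t, a, 0, 0]) (a b c : ℝ) :
    pd 1 w ![t, a, b, c] = pd 1 w ![t, a, 0, 0] := by
  rw [← (hd1 w hw t a b c).deriv, ← (hd1 w hw t a 0 0).deriv]
  congr 1
  ext s
  exact h s b c

theorem indep0 (w : V 4 → ℝ) (hw : Differentiable ℝ w) (hc : Continuous (pd 0 w))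
    (h : ∀ t, |t| ≤ 1 → ∀ a b c, w ![t, a, b, c] = w ![t, a, 0, 0]) {t : ℝ} (ht : |t| ≤ 1)
    (a b c : ℝ) : pd 0 w ![t, a, b, c] = pd 0 w ![t, a, 0, 0] := by
  have hopen : Set.EqOn (fun t : ℝ => pd 0 w ![t, a, b, c]) (fun t : ℝ => pd 0 w ![t, a, 0, 0])
      (Set.Ioo (-1) 1) := by
    intro s hs
    show pd 0 w ![s, a, b, c] = pd 0 w ![s, a, 0, 0]
    rw [← (hd0 w hw s a b c).deriv, ← (hd0 w hw s a 0 0).deriv]
    apply Filter.EventuallyEq.deriv_eq
    filter_upwards [isOpen_Ioo.mem_nhds hs] with r hr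
    exact h r (abs_le.2 ⟨hr.1.le, hr.2.le⟩) a b c
  have hcl := hopen.closure (hc.comp (by fun_prop)) (hc.comp (by fun_prop))
  rw [closure_Ioo (by norm_num)] at hcl
  exact hcl (abs_le.1 ht)

theorem cont_q : Continuous q := by
  unfold q
  fun_prop

theorem q_pos (t : ℝ) : 0 < q t := Real.exp_pos _

/-- double integral over a periodic function -/
theorem per_int (g : ℝ → ℝ) (hg : Continuous g) (hp : ∀ a, g (a + Real.pi) = g a) :
    ∫ a in (0 : ℝ)..(2 * Real.pi), g a = 2 * ∫ a in (0 : ℝ)..Real.pi, g a := by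
  have h1 : ∫ a in (0 : ℝ)..Real.pi, g (a + Real.pi) = ∫ a in (0 + Real.pi)..(Real.pi + Real.pi), g a :=
    intervalIntegral.integral_comp_add_right g Real.pi
  simp_rw [hp] at h1
  rw [← intervalIntegral.integral_add_adjacent_intervals (hg.intervalIntegrable 0 Real.pi)
    (hg.intervalIntegrable Real.pi (2 * Real.pi))]
  rw [zero_add, ← two_mul] at h1
  rw [← h1]
  ring

theorem NC_proof : NC := by
  intro hCommD hOpD hEne hWir hPic lam ψ u hψ hu hi hz
  -- the function
  set v : V 4 → ℝ := pd 1 u with hv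
  have hus : ContDiff ℝ ∞ u := hu.1
  have hvs : ContDiff ℝ ∞ v := (hCommD u hus).1 1
  have hud : Differentiable ℝ u := hus.differentiable (by simp)
  have hvd : Differentiable ℝ v := hvs.differentiable (by simp)
  have hv0s : ContDiff ℝ ∞ (pd 0 v) := (hCommD v hvs).1 0
  have hv1s : ContDiff ℝ ∞ (pd 1 v) := (hCommD v hvs).1 1
  have hsol : Sol lam 0 v := (hOpD hCommD).1 lam 0 u hu 0
  have hE := hEne lam v hsol
  have hui : ∀ t, |t| ≤ 1 → ∀ a b c, u ![t, a, b, c] = u ![t, a, 0, 0] := fun t ht a b c =>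
    indep u hud hz ht a b c
  have hvi : ∀ t, |t| ≤ 1 → ∀ a b c, v ![t, a, b, c] = v ![t, a, 0, 0] := fun t ht a b c =>
    indep1 u hud (hui t ht) a b c
  have hv1i : ∀ t, |t| ≤ 1 → ∀ a b c, pd 1 v ![t, a, b, c] = pd 1 v ![t, a, 0, 0] :=
    fun t ht a b c => indep1 v hvd (hvi t ht) a b c
  have hv0i : ∀ t, |t| ≤ 1 → ∀ a b c, pd 0 v ![t, a, b, c] = pd 0 v ![t, a, 0, 0] :=
    fun t ht a b c => indep0 v hvd hv0s.continuous hvi ht a b c
  have hv2 : ∀ t, |t| ≤ 1 → ∀ a b c, pd 2 v ![t, a, b, c] = 0 := by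
    intro t ht a b c
    rw [← (hd2 v hvd t a b c).deriv]
    have : (fun s => v ![t, a, s, c]) = fun _ => v ![t, a, 0, 0] := by
      ext s; exact hvi t ht a s c
    rw [this, deriv_const]
  have hv3 : ∀ t, |t| ≤ 1 → ∀ a b c, pd 3 v ![t, a, b, c] = 0 := by
    intro t ht a b c
    rw [← (hd3 v hvd t a b c).deriv]
    have : (fun s => v ![t, a, b, s]) = fun _ => v ![t, a, 0, 0] := by
      ext s; exact hvi t ht a b s
    rw [this, deriv_const]
  -- two-variable functions
  set W : ℝ → ℝ → ℝ := fun t a => v ![t, a, 0, 0] with hW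
  set W0 : ℝ → ℝ → ℝ := fun t a => pd 0 v ![t, a, 0, 0] with hW0
  set W1 : ℝ → ℝ → ℝ := fun t a => pd 1 v ![t, a, 0, 0] with hW1
  have hcurve : Continuous fun p : ℝ × ℝ => (![p.1, p.2, 0, 0] : V 4) := by fun_prop
  have cW : Continuous fun p : ℝ × ℝ => W p.1 p.2 := hvs.continuous.comp hcurve
  have cW0 : Continuous fun p : ℝ × ℝ => W0 p.1 p.2 := hv0s.continuous.comp hcurve
  have cW1 : Continuous fun p : ℝ × ℝ => W1 p.1 p.2 := hv1s.continuous.comp hcurve
  have cq := cont_q
  have cqi : Continuous fun t => ((q t)⁻¹) ^ 2 := (cq.inv₀ fun t => (q_pos t).ne').pow 2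
  -- the energy identity
  have hE2 : ∫ t in (-1 : ℝ)..1, ∫ a in (0 : ℝ)..(2 * Real.pi),
      ((W0 t a) ^ 2 + ((q t)⁻¹) ^ 2 * (W1 t a) ^ 2 - lam * q t * (W t a) ^ 2) = 0 := by
    have key : box (fun x => (pd 0 v x) ^ 2 + ((q (x 0))⁻¹) ^ 2 * (pd 1 v x) ^ 2 +
        q (x 0) ^ 2 * ((pd 2 v x) ^ 2 + (pd 3 v x) ^ 2) - lam * q (x 0) * (v x) ^ 2) =
        (2 * Real.pi) ^ 2 * ∫ t in (-1 : ℝ)..1, ∫ a in (0 : ℝ)..(2 * Real.pi),
      ((W0 t a) ^ 2 + ((q t)⁻¹) ^ 2 * (W1 t a) ^ 2 - lam * q t * (W t a) ^ 2) := by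
      unfold box
      rw [← intervalIntegral.integral_const_mul]
      apply intervalIntegral.integral_congr
      intro t ht
      rw [Set.uIcc_of_le (by norm_num)] at ht
      have ht' : |t| ≤ 1 := abs_le.2 ht
      simp only
      rw [← intervalIntegral.integral_const_mul]
      apply intervalIntegral.integral_congr
      intro a _
      simp only
      have e : ∀ b c : ℝ, (pd 0 v ![t, a, b, c]) ^ 2 +
          ((q ((![t, a, b, c] : V 4) 0))⁻¹) ^ 2 * (pd 1 v ![t, a, b, c]) ^ 2 +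
          q ((![t, a, b, c] : V 4) 0) ^ 2 * ((pd 2 v ![t, a, b, c]) ^ 2 +
            (pd 3 v ![t, a, b, c]) ^ 2) -
          lam * q ((![t, a, b, c] : V 4) 0) * (v ![t, a, b, c]) ^ 2 =
          (W0 t a) ^ 2 + ((q t)⁻¹) ^ 2 * (W1 t a) ^ 2 - lam * q t * (W t a) ^ 2 := by
        intro b c
        rw [hv0i t ht', hv1i t ht', hv2 t ht', hv3 t ht', hvi t ht']
        simp [hW, hW0, hW1]
      simp_rw [e]
      simp only [intervalIntegral.integral_const, smul_eq_mul]
      ring
    rw [key] at hE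
    have hpi : (2 * Real.pi) ^ 2 ≠ 0 := by positivity
    exact (mul_eq_zero.1 hE).resolve_left hpi
  -- periodicity
  have hup : ∀ t, |t| ≤ 1 → ∀ a, u ![t, a + Real.pi, 0, 0] = u ![t, a, 0, 0] := by
    intro t ht a
    have h1 := hi ![t, a, 0, 0] (mem_strip ht)
    have h2 : i2 ![t, a, 0, 0] = ![t, a + Real.pi, 0, 0] := by
      unfold i2
      simp
    rw [h2] at h1
    exact h1
  have hWp : ∀ t, |t| ≤ 1 → ∀ a, W t (a + Real.pi) = W t a := by
    intro t ht a
    show v ![t, a + Real.pi, 0, 0] = v ![t, a, 0, 0]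
    rw [hv]
    have h1 : HasDerivAt (fun s => u ![t, s + Real.pi, 0, 0]) (pd 1 u ![t, a + Real.pi, 0, 0]) a :=
      (hd1 u hud t (a + Real.pi) 0 0).comp_add_const a Real.pi
    have h2 : (fun s => u ![t, s + Real.pi, 0, 0]) = fun s => u ![t, s, 0, 0] := by
      ext s; exact hup t ht s
    rw [h2] at h1
    exact h1.unique (hd1 u hud t a 0 0)
  have hW1d : ∀ t a, HasDerivAt (W t) (W1 t a) a := fun t a => hd1 v hvd t a 0 0
  have hW1p : ∀ t, |t| ≤ 1 → ∀ a, W1 t (a + Real.pi) = W1 t a := by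
    intro t ht a
    have h1 : HasDerivAt (fun s => W t (s + Real.pi)) (W1 t (a + Real.pi)) a :=
      (hW1d t (a + Real.pi)).comp_add_const a Real.pi
    have h2 : (fun s => W t (s + Real.pi)) = W t := by
      ext s; exact hWp t ht s
    rw [h2] at h1
    exact h1.unique (hW1d t a)
  -- Wirtinger
  have hwir : ∀ t, |t| ≤ 1 → 4 * ∫ a in (0 : ℝ)..(2 * Real.pi), (W t a) ^ 2 ≤
      ∫ a in (0 : ℝ)..(2 * Real.pi), (W1 t a) ^ 2 := by
    intro t ht
    have cs : ContDiff ℝ 1 (W t) := by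
      have hc2 : ContDiff ℝ 1 (fun a : ℝ => (![t, a, 0, 0] : V 4)) := by
        rw [contDiff_pi]
        intro i
        fin_cases i <;> first | exact contDiff_const | exact contDiff_id
      exact (hvs.of_le (by exact_mod_cast le_top)).comp hc2
    have h1 := hWir Real.pi (W t) Real.pi_pos cs (by
      have := hWp t ht 0
      rwa [zero_add] at this) (by
      have hint : ∫ a in (0 : ℝ)..Real.pi, W t a = u ![t, Real.pi, 0, 0] - u ![t, 0, 0, 0] := by
        apply intervalIntegral.integral_eq_sub_of_hasDerivAt (f := fun a => u ![t, a, 0, 0])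
          (f' := W t)
        · intro a _
          exact hd1 u hud t a 0 0
        · exact cs.continuous.intervalIntegrable _ _
      rw [hint]
      have := hup t ht 0
      rw [zero_add] at this
      rw [this, sub_self])
    have hd : deriv (W t) = W1 t := by
      ext a; exact (hW1d t a).deriv
    rw [hd] at h1
    have e1 := per_int (fun a => (W t a) ^ 2) (cs.continuous.pow 2) (fun a => by
      rw [hWp t ht])
    have cW1t : Continuous (W1 t) := cW1.comp (Continuous.prodMk_right t)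
    have e2 := per_int (fun a => (W1 t a) ^ 2) (cW1t.pow 2) (fun a => by
      rw [hW1p t ht])
    rw [e1, e2]
    have e3 : (2 * Real.pi / Real.pi) ^ 2 = (4 : ℝ) := by
      field_simp; norm_num
    rw [e3] at h1
    linarith
  -- Picone
  have hpic : ∀ a, 0 ≤ ∫ t in (-1 : ℝ)..1,
      ((W0 t a) ^ 2 + (((q t)⁻¹) ^ 2 - lam * q t) * (W t a) ^ 2) := by
    intro a
    have cs : ContDiff ℝ 1 (fun t => W t a) := by
      have hc2 : ContDiff ℝ 1 (fun t : ℝ => (![t, a, 0, 0] : V 4)) := by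
        rw [contDiff_pi]
        intro i
        fin_cases i <;> first | exact contDiff_const | exact contDiff_id
      exact (hvs.of_le (by exact_mod_cast le_top)).comp hc2
    have h1 := hPic (fun t => ((q t)⁻¹) ^ 2 - lam * q t) ψ (fun t => W t a)
      (cqi.sub (continuous_const.mul cq)) (hψ.1.of_le (by norm_cast)) cs hψ.2.1
      hψ.2.2.1 hψ.2.2.2.1 hψ.2.2.2.2.ge
    have hd : ∀ t, deriv (fun t => W t a) t = W0 t a := fun t => (hd0 v hvd t a 0 0).deriv
    simp_rw [hd] at h1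
    exact h1
  have hpic2 : 0 ≤ ∫ t in (-1 : ℝ)..1, ∫ a in (0 : ℝ)..(2 * Real.pi),
      ((W0 t a) ^ 2 + (((q t)⁻¹) ^ 2 - lam * q t) * (W t a) ^ 2) := by
    rw [MeasureTheory.intervalIntegral_intervalIntegral_swap]
    · apply intervalIntegral.integral_nonneg (by positivity)
      intro a _
      exact hpic a
    · have hcP : Continuous (Function.uncurry fun t a : ℝ =>
          ((W0 t a) ^ 2 + (((q t)⁻¹) ^ 2 - lam * q t) * (W t a) ^ 2)) := by
        have c1 : Continuous fun p : ℝ × ℝ => ((q p.1)⁻¹) ^ 2 := cqi.comp continuous_fst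
        have c2 : Continuous fun p : ℝ × ℝ => q p.1 := cq.comp continuous_fst
        exact (cW0.pow 2).add ((c1.sub (continuous_const.mul c2)).mul (cW.pow 2))
      have hK : IsCompact (Set.uIcc (-1 : ℝ) 1 ×ˢ Set.uIcc (0 : ℝ) (2 * Real.pi)) :=
        isCompact_uIcc.prod isCompact_uIcc
      exact (hcP.continuousOn.integrableOn_compact hK).mono_set
        (Set.prod_mono Set.uIoc_subset_uIcc Set.uIoc_subset_uIcc)
  -- combination
  have cg : Continuous fun t => ∫ a in (0 : ℝ)..(2 * Real.pi), (W t a) ^ 2 :=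
    intervalIntegral.continuous_parametric_intervalIntegral_of_continuous' (cW.pow 2) 0
      (2 * Real.pi)
  have hle : ∫ t in (-1 : ℝ)..1, 3 * (((q t)⁻¹) ^ 2 *
      ∫ a in (0 : ℝ)..(2 * Real.pi), (W t a) ^ 2) ≤ 0 := by
    have hcA : Continuous (Function.uncurry fun t a : ℝ =>
        ((W0 t a) ^ 2 + ((q t)⁻¹) ^ 2 * (W1 t a) ^ 2 - lam * q t * (W t a) ^ 2)) := by
      have c1 : Continuous fun p : ℝ × ℝ => ((q p.1)⁻¹) ^ 2 := cqi.comp continuous_fst
      have c2 : Continuous fun p : ℝ × ℝ => q p.1 := cq.comp continuous_fst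
      exact ((cW0.pow 2).add (c1.mul (cW1.pow 2))).sub ((continuous_const.mul c2).mul (cW.pow 2))
    have hcP : Continuous (Function.uncurry fun t a : ℝ =>
        ((W0 t a) ^ 2 + (((q t)⁻¹) ^ 2 - lam * q t) * (W t a) ^ 2)) := by
      have c1 : Continuous fun p : ℝ × ℝ => ((q p.1)⁻¹) ^ 2 := cqi.comp continuous_fst
      have c2 : Continuous fun p : ℝ × ℝ => q p.1 := cq.comp continuous_fst
      exact (cW0.pow 2).add ((c1.sub (continuous_const.mul c2)).mul (cW.pow 2))
    have cA := intervalIntegral.continuous_parametric_intervalIntegral_of_continuous'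
      (μ := volume) hcA 0 (2 * Real.pi)
    have cP := intervalIntegral.continuous_parametric_intervalIntegral_of_continuous'
      (μ := volume) hcP 0 (2 * Real.pi)
    have hmono : ∫ t in (-1 : ℝ)..1, 3 * (((q t)⁻¹) ^ 2 *
        ∫ a in (0 : ℝ)..(2 * Real.pi), (W t a) ^ 2) ≤
        ∫ t in (-1 : ℝ)..1, ((∫ a in (0 : ℝ)..(2 * Real.pi),
          ((W0 t a) ^ 2 + ((q t)⁻¹) ^ 2 * (W1 t a) ^ 2 - lam * q t * (W t a) ^ 2)) -
          ∫ a in (0 : ℝ)..(2 * Real.pi),
            ((W0 t a) ^ 2 + (((q t)⁻¹) ^ 2 - lam * q t) * (W t a) ^ 2)) := by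
      apply intervalIntegral.integral_mono_on (by norm_num)
      · exact (continuous_const.mul (cqi.mul cg)).intervalIntegrable _ _
      · exact (cA.sub cP).intervalIntegrable _ _
      · intro t ht
        have ht' : |t| ≤ 1 := abs_le.2 ht
        have cWt : Continuous (W t) := cW.comp (Continuous.prodMk_right t)
        have cW0t : Continuous (W0 t) := cW0.comp (Continuous.prodMk_right t)
        have cW1t : Continuous (W1 t) := cW1.comp (Continuous.prodMk_right t)
        rw [← intervalIntegral.integral_sub]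
        · have e : ∀ a, ((W0 t a) ^ 2 + ((q t)⁻¹) ^ 2 * (W1 t a) ^ 2 - lam * q t * (W t a) ^ 2) -
              ((W0 t a) ^ 2 + (((q t)⁻¹) ^ 2 - lam * q t) * (W t a) ^ 2) =
              ((q t)⁻¹) ^ 2 * ((W1 t a) ^ 2 - (W t a) ^ 2) := by intro a; ring
          simp_rw [e]
          have i1 : IntervalIntegrable (fun a => (W1 t a) ^ 2) volume 0 (2 * Real.pi) :=
            (cW1t.pow 2).intervalIntegrable _ _
          have i2 : IntervalIntegrable (fun a => (W t a) ^ 2) volume 0 (2 * Real.pi) :=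
            (cWt.pow 2).intervalIntegrable _ _
          rw [intervalIntegral.integral_const_mul, intervalIntegral.integral_sub i1 i2]
          have h1 := hwir t ht'
          have h2 : 0 ≤ ((q t)⁻¹) ^ 2 := by positivity
          nlinarith [mul_le_mul_of_nonneg_left h1 h2]
        · exact (((cW0t.pow 2).add (continuous_const.mul (cW1t.pow 2))).sub
            (continuous_const.mul (cWt.pow 2))).intervalIntegrable _ _
        · exact ((cW0t.pow 2).add (continuous_const.mul (cWt.pow 2))).intervalIntegrable _ _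
    rw [intervalIntegral.integral_sub (cA.intervalIntegrable _ _) (cP.intervalIntegrable _ _),
      hE2] at hmono
    linarith
  have hgz : ∀ t ∈ Set.Icc (-1 : ℝ) 1, ∫ a in (0 : ℝ)..(2 * Real.pi), (W t a) ^ 2 = 0 := by
    by_contra hcon
    push Not at hcon
    obtain ⟨t0, ht0, hne⟩ := hcon
    have hnn : ∀ t, 0 ≤ ∫ a in (0 : ℝ)..(2 * Real.pi), (W t a) ^ 2 := fun t =>
      intervalIntegral.integral_nonneg (by positivity) (fun a _ => sq_nonneg _)
    have hpos : 0 < ∫ t in (-1 : ℝ)..1, 3 * (((q t)⁻¹) ^ 2 *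
        ∫ a in (0 : ℝ)..(2 * Real.pi), (W t a) ^ 2) := by
      apply intervalIntegral.integral_pos (by norm_num)
      · exact (continuous_const.mul (cqi.mul cg)).continuousOn
      · intro t _
        have := hnn t
        positivity
      · refine ⟨t0, ht0, ?_⟩
        have h1 := lt_of_le_of_ne (hnn t0) (Ne.symm hne)
        have h2 : 0 < ((q t0)⁻¹) ^ 2 := by
          have := q_pos t0
          positivity
        positivity
    linarith
  have hWz : ∀ t, |t| ≤ 1 → ∀ a ∈ Set.Icc (0 : ℝ) (2 * Real.pi), W t a = 0 := by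
    intro t ht
    by_contra hcon
    push Not at hcon
    obtain ⟨a0, ha0, hne⟩ := hcon
    have cWt : Continuous (W t) := cW.comp (Continuous.prodMk_right t)
    have hpos : 0 < ∫ a in (0 : ℝ)..(2 * Real.pi), (W t a) ^ 2 := by
      apply intervalIntegral.integral_pos (by positivity)
      · exact (cWt.pow 2).continuousOn
      · intro a _
        positivity
      · exact ⟨a0, ha0, by positivity⟩
    rw [hgz t (abs_le.1 ht)] at hpos
    exact lt_irrefl _ hpos
  intro x hx
  have hx0 : |x 0| ≤ 1 := hx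
  have hxe : x = ![x 0, x 1, x 2, x 3] := by
    ext i
    fin_cases i <;> rfl
  have hper : Function.Periodic (W (x 0)) Real.pi := fun a => hWp (x 0) hx0 a
  obtain ⟨y, hy, hxy⟩ := hper.exists_mem_Ico₀ Real.pi_pos (x 1)
  have h1 : v ![x 0, x 1, x 2, x 3] = W (x 0) (x 1) := hvi (x 0) hx0 _ _ _
  show v x = 0
  rw [hxe, h1, hxy]
  exact hWz (x 0) hx0 y ⟨hy.1, by have := hy.2; have := Real.pi_pos; linarith⟩

end

end Pool.Agent.W241.ST
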